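import Pool.Agent.U511.RD.Num

set_option autoImplicit false

/-!
# Every graph is near to a reconstructible graph

`T(G)` is the set of nonempty cliques of `G` ordered by inclusion.

**Theorem.** Let `G` be an arbitrary graph with `n ≥ 3` vertices. By changing (deleting or adding) at
most `6900 √(n log n)` edges one can obtain a graph `H` on the same vertices such that `T(H)` and `T` of
the complement of `H` are reconstructible from their decks of maximal filter deleted subsets.

So a counterexample to the reconstruction conjecture cannot be robust: whatever `G` is, the
reconstructible graphs come as near to `G` as `O(√(n log n))` edges, although there are `n (n - 1) / 2`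
pairs of vertices. (By isolating a vertex, or joining a vertex to all the others, one has to change
up to `(n - 1) / 2` edges.)

The proof.

* *Entropy.* Let `u_0, u_1, …` be different vertices and `C_t` the partition of the vertices according
  to their neighbours in `{u_0, …, u_(t-1)}` (and in a fixed set `B`). If the adjacency to `v = u_t` is
  changed for the minority of each class, the neighbourhood of `v` becomes a union of classes of `C_t`.
  Each vertex of a minority gets a class of at most half the size in `C_(t+1)`, so the minorities for
  `t = t_0, …, t_0 + s - 1` have altogether at most `n log₂ n` elements, and one of them has at most
  `(n log₂ n) / s`.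
* *Codes.* Let `B` be a set of `b` vertices of the largest degrees, `b` about `3 n ^ (1 / 4)`. The
  neighbourhoods in `B` of the `u_i` are changed, each in at most six places, such that they are
  different from each other and from those of all other vertices; `C(b, 6)` is larger than `b n`.
* *Isolated degrees.* By adding edges between `B` and other vertices, at most one at each, the degrees
  of the vertices in `B` become larger than the other degrees (the one of `v` excepted) and different
  from each other by at least two. The degree of `v` is kept away from them by means of the adjacency
  of `v` to `u_0, …, u_(t-1)`.
* Now the gaps in the degrees determine the vertices in `B`, these determine `u_0, …, u_(t-1)` and `v`,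
  and the adjacency to `v` of all other vertices is determined by their neighbours among these. So the
  theorem on tame colourings of the starting library (`Pool.Agent.R694.RC.main`, see
  `GapsAndRigidSets`) applies. If some vertex of `B` has not enough nonneighbours for the added edges,
  it is joined to all other vertices instead.

The number of changed edges is about `12 s + (n log₂ n) / s + O(b ^ 2)`, and `s` is `√(n log₂ n)`.
-/

namespace Pool.Agent.Results.MP_552896_co.EditDistance

/-- The truncated clique lattices of `G` and `H` have the same deck of maximal filter deleted
subsets: some bijection `f` of the vertex sets is such that, for every vertex `v`, the nonempty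
cliques of `G` avoiding `v` and the nonempty cliques of `H` avoiding `f v`, both ordered by
inclusion, are isomorphic ordered sets. -/
def SameDeck {V W : Type} (G : SimpleGraph V) (H : SimpleGraph W) : Prop :=
  ∃ f : V ≃ W, ∀ v : V,
    Nonempty ({s : Finset V // s.Nonempty ∧ G.IsClique (s : Set V) ∧ v ∉ s} ≃o
      {t : Finset W // t.Nonempty ∧ H.IsClique (t : Set W) ∧ f v ∉ t})

/-- `T(G)` is reconstructible from its deck: every truncated clique lattice `T(H)` of a finite
graph `H` with the same deck is isomorphic to `T(G)`. -/
def Reconstructible {V : Type} (G : SimpleGraph V) : Prop :=
  ∀ (W : Type) [Fintype W] (H : SimpleGraph W), SameDeck G H →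
    Nonempty ({s : Finset V // s.Nonempty ∧ G.IsClique (s : Set V)} ≃o
      {t : Finset W // t.Nonempty ∧ H.IsClique (t : Set W)})

/-- **Every graph is near to a reconstructible graph.** For every finite graph `G` with `n ≥ 3`
vertices there is a graph `H` on the same vertices, such that at most `6900 √(n log n)` pairs of
vertices are edges of exactly one of `G` and `H`, and `T(H)` and `T` of the complement of `H` are
reconstructible. -/
theorem result (V : Type) [Fintype V] (G : SimpleGraph V) (hV : 3 ≤ Fintype.card V) :
    ∃ H : SimpleGraph V,
      ((symmDiff G.edgeSet H.edgeSet).ncard : ℝ) ≤
        6900 * √(Fintype.card V * Real.log (Fintype.card V)) ∧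
      Reconstructible H ∧ Reconstructible Hᶜ :=
  Pool.Agent.U511.RD.finalA G hV

end Pool.Agent.Results.MP_552896_co.EditDistance
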