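import Pool.Agent.U392.SW.Big3

set_option autoImplicit false

/-!
# Graphs which are regular, or have even degrees, up to a few vertices

`T(G)` is the set of nonempty cliques of `G` ordered by inclusion; `G` is a finite graph with at
least three vertices, `s` and `k` are natural numbers.

It is classical that `T(G)` is reconstructible if no two degrees of `G` are consecutive numbers, for
instance if `G` is regular or if all degrees are even. We admit `k` exceptional vertices.

Let `D` be a set of natural numbers without two consecutive elements, for example `D = {d}` or the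
set of the even numbers, and call the vertices whose degree is not in `D` exceptional. Assume that
`G` is *connected at the scale `s` around `v`* for all vertices `v` such that `v` and its neighbours
are not exceptional: the neighbourhood of `v` is not a union of two nonempty sets which are joined
by no path with at most `s` edges in `G - v`.

**Theorem.** Let `G` have at most `k` exceptional vertices, and let
`E = 2 ^ (k + 1) * (k ^ 2 + s + 4) + s + 3`.

(1) If some vertex has distance more than `E` from all exceptional vertices, then `T(G)` and
    `T` of the complement of `G` are reconstructible.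
(2) If all degrees are at most `Δ` and `G` has more than `k * (Δ + 1) ^ E` vertices, then `T(G)` and
    `T` of the complement of `G` are reconstructible. So for given `k`, `s`, `Δ` all but finitely
    many graphs of this kind are reconstructible.
(3) *Local criterion.* Let `v` be a vertex such that no two degrees of neighbours of `v` are
    consecutive numbers, and let a vertex `x ≠ v` not adjacent to `v` be *deficient* if its degree is
    one less than the degree of a neighbour of `v`. Assume that `G` is connected at the scale `s`
    around `v`, that no path with at most `s` edges in `G - v` joins a neighbour of `v` to a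
    deficient vertex, and that for every set `B` of `deg v` deficient vertices which is joined to no
    deficient vertex outside `B` by such a path, for some `t` between `1` and `s` the numbers of the
    paths with `t` edges of `G - v` with both ends in `B`, and in the neighbourhood of `v`, are
    different. (There is no such `B` if fewer than `deg v` vertices are deficient, or if there are
    more than `deg v` deficient vertices and they are joined to each other by such paths.) If `s`
    plus twice the number of different degrees is at most the number of vertices, then `T(G)` and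
    `T` of the complement of `G` are reconstructible.

The proof. Let `H` be a hypomorphic graph. The card at `v` shows that `H` is `G - v` with a new
vertex whose neighbourhood arises from the one of `v` by the exchange of a set `A` of neighbours and
a set `B` of deficient vertices. The new idea is to compare two counts of paths with `t` edges in
`G - v`: the number of cycles through `v` is reconstructible, and so is the number of paths with
both ends of deficient degree (by Kelly's lemma for the moments of the degrees of the ends and
Lagrange interpolation); the difference shows that paths from `A` to the other neighbours and from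
`B` to the other deficient vertices cannot exist at a small scale. So all neighbours are exchanged:
`H` is `G` with a hole at `v` and another hole filled. For (1) this is applied to many vertices `v`
of a shortest path and, for pairs of them, twice; the distance of two holes is then one of the
at most `k ^ 2` distances of exceptional vertices of `G`, which is impossible for many pairs.
-/

namespace Pool.Agent.Results.MP_552896_co.ExceptionalVertices

open Finset

/-- The truncated clique lattices of `G` and `H` have the same deck of maximal filter deleted
subsets: some bijection `f` of the vertex sets is such that, for every vertex `v`, the nonempty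
cliques of `G` avoiding `v` and the nonempty cliques of `H` avoiding `f v`, both ordered by
inclusion, are isomorphic ordered sets. -/
def SameDeck {V W : Type} (G : SimpleGraph V) (H : SimpleGraph W) : Prop :=
  ∃ f : V ≃ W, ∀ v : V,
    Nonempty ({s : Finset V // s.Nonempty ∧ G.IsClique (s : Set V) ∧ v ∉ s} ≃o
      {t : Finset W // t.Nonempty ∧ H.IsClique (t : Set W) ∧ f v ∉ t})

/-- `T(G)` is reconstructible from its deck: every truncated clique lattice `T(H)` of a finite
graph `H` with the same deck is isomorphic to `T(G)`. -/
def Reconstructible {V : Type} (G : SimpleGraph V) : Prop :=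
  ∀ (W : Type) [Fintype W] (H : SimpleGraph W), SameDeck G H →
    Nonempty ({s : Finset V // s.Nonempty ∧ G.IsClique (s : Set V)} ≃o
      {t : Finset W // t.Nonempty ∧ H.IsClique (t : Set W)})

open Classical in
/-- The degree of `x` in `G`. -/
noncomputable def deg {V : Type} [Fintype V] (G : SimpleGraph V) (x : V) : ℕ :=
  (univ.filter (fun y => G.Adj x y)).card

/-- `x 0, …, x t` is a path with `t` edges in `G - v`. -/
def PathAvoiding {V : Type} (G : SimpleGraph V) (v : V) (t : ℕ) (x : Fin (t + 1) → V) : Prop :=
  Function.Injective x ∧ (∀ i, x i ≠ v) ∧ ∀ i : Fin t, G.Adj (x i.castSucc) (x i.succ)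

/-- `a` and `b` are joined by a path with at most `s` edges in `G - v`. -/
def Near {V : Type} (G : SimpleGraph V) (v : V) (s : ℕ) (a b : V) : Prop :=
  ∃ t ≤ s, ∃ x : Fin (t + 1) → V, PathAvoiding G v t x ∧ x 0 = a ∧ x (Fin.last t) = b

/-- `G` is connected at the scale `s` around `v`: if the neighbourhood of `v` is divided into two
nonempty parts, there is a path with at most `s` edges in `G - v` from one part to the other. -/
def ConnectedAround {V : Type} (G : SimpleGraph V) (s : ℕ) (v : V) : Prop :=
  ∀ A : Set V, (∃ a ∈ A, G.Adj v a) → (∃ b, b ∉ A ∧ G.Adj v b) →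
    ∃ a ∈ A, ∃ b, b ∉ A ∧ G.Adj v a ∧ G.Adj v b ∧ Near G v s a b

/-- `x ≠ v` is not adjacent to `v`, and its degree is one less than the degree of a neighbour of
`v`. -/
def Deficient {V : Type} [Fintype V] (G : SimpleGraph V) (v x : V) : Prop :=
  x ≠ v ∧ ¬ G.Adj v x ∧ ∃ a, G.Adj v a ∧ deg G a = deg G x + 1

open Classical in
/-- The number of the paths `x 0, …, x t` with `t` edges in `G - v` with both ends in `P`. -/
noncomputable def pathCount {V : Type} [Fintype V] (G : SimpleGraph V) (v : V) (t : ℕ)
    (P : V → Prop) : ℕ :=
  (univ.filter (fun x : Fin (t + 1) → V =>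
    PathAvoiding G v t x ∧ P (x 0) ∧ P (x (Fin.last t)))).card

open Classical in
/-- **Theorem.** (1) Graphs with a vertex far from the exceptional vertices, (2) large graphs of
bounded degree, (3) the local criterion. -/
theorem result :
    (∀ (V : Type) [Fintype V] (G : SimpleGraph V) (D : Set ℕ) (s k : ℕ), 3 ≤ Fintype.card V →
      (∀ j ∈ D, j + 1 ∉ D) → (univ.filter (fun z => deg G z ∉ D)).card ≤ k →
      (∃ u, ∀ z, deg G z ∉ D → 2 ^ (k + 1) * (k ^ 2 + s + 4) + s + 3 < G.dist u z) →
      (∀ v, deg G v ∈ D → (∀ a, G.Adj v a → deg G a ∈ D) → ConnectedAround G s v) →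
      Reconstructible G ∧ Reconstructible Gᶜ) ∧
    (∀ (V : Type) [Fintype V] (G : SimpleGraph V) (D : Set ℕ) (s k Δ : ℕ), 3 ≤ Fintype.card V →
      (∀ j ∈ D, j + 1 ∉ D) → (univ.filter (fun z => deg G z ∉ D)).card ≤ k →
      (∀ x, deg G x ≤ Δ) →
      k * (Δ + 1) ^ (2 ^ (k + 1) * (k ^ 2 + s + 4) + s + 3) < Fintype.card V →
      (∀ v, deg G v ∈ D → (∀ a, G.Adj v a → deg G a ∈ D) → ConnectedAround G s v) →
      Reconstructible G ∧ Reconstructible Gᶜ) ∧
    (∀ (V : Type) [Fintype V] (G : SimpleGraph V) (v : V) (s : ℕ), 3 ≤ Fintype.card V →
      s + 2 * (univ.image (deg G)).card ≤ Fintype.card V →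
      (∀ a b, G.Adj v a → G.Adj v b → deg G a ≠ deg G b + 1) →
      ConnectedAround G s v →
      (∀ a x, G.Adj v a → Deficient G v x → ¬ Near G v s a x) →
      (∀ B : Finset V, B.card = deg G v → (∀ b ∈ B, Deficient G v b) →
        (∀ b ∈ B, ∀ x, Deficient G v x → x ∉ B → ¬ Near G v s b x) →
        ∃ t, 1 ≤ t ∧ t ≤ s ∧
          pathCount G v t (fun x => x ∈ B) ≠ pathCount G v t (fun x => G.Adj v x)) →
      Reconstructible G ∧ Reconstructible Gᶜ) := by
  have pin : ∀ (V : Type) [Fintype V] (G : SimpleGraph V) (v : V) (t : ℕ) (x : Fin (t + 1) → V),
      Pool.Agent.U392.SW.PathIn G v t x ↔ PathAvoiding G v t x := by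
    intro V _ G v t x
    constructor
    · rintro ⟨⟨h1, h2⟩, h3⟩
      exact ⟨h1, h3, h2⟩
    · rintro ⟨h1, h3, h2⟩
      exact ⟨⟨h1, h2⟩, h3⟩
  have lc : ∀ (V : Type) [Fintype V] (G : SimpleGraph V) (s : ℕ) (v : V),
      ConnectedAround G s v → Pool.Agent.U392.SW.LC G v s := by
    intro V _ G s v h A hA hA'
    obtain ⟨a, ha, b, hb, h1, h2, t, ht, x, hx, h3, h4⟩ := h (A : Set V)
      (by simpa using hA) (by simpa using hA')
    refine ⟨t, ht, x, (pin V G v t x).mpr hx, by rw [h3]; exact h1, by rw [h3]; simpa using ha,
      by rw [h4]; exact h2, by rw [h4]; simpa using hb⟩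
  have dd : ∀ (V : Type) [Fintype V] (G : SimpleGraph V) (x : V),
      Pool.Agent.U392.SW.dg G x = deg G x := by
    intro V _ G x
    unfold Pool.Agent.U392.SW.dg deg
    congr
  refine ⟨?_, ?_, ?_⟩
  · intro V _ G D s k hV hD hk hu hL
    by_cases hc : G.Connected
    · obtain ⟨u, hu⟩ := hu
      refine Pool.Agent.U392.SW.bigConn G hV hc (fun j => j ∈ D) hD s k ?_ u ?_ ?_
      · simp only [dd]
        convert hk
      · intro z hz
        rw [dd] at hz
        exact hu z hz
      · intro v hv ha
        rw [dd] at hv
        simp only [dd] at ha
        exact lc V G s v (hL v hv ha)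
    · exact Pool.Agent.U392.SW.disc G hV hc
  · intro V _ G D s k Δ hV hD hk hΔ hn hL
    refine Pool.Agent.U392.SW.bigMain G hV (fun j => j ∈ D) hD s k Δ ?_ ?_ hn ?_
    · intro x
      rw [dd]
      exact hΔ x
    · simp only [dd]
      convert hk
    · intro v hv ha
      rw [dd] at hv
      simp only [dd] at ha
      exact lc V G s v (hL v hv ha)
  · intro V _ G v s hV hs hdiff hL hfar hB
    have hdd : Pool.Agent.U392.SW.dg G = deg G := funext (fun x => dd V G x)
    have htv : ∀ x, Pool.Agent.U392.SW.Tv G v x ↔ Deficient G v x := by
      intro x
      unfold Pool.Agent.U392.SW.Tv Deficient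
      simp only [dd]
    refine Pool.Agent.TH87.RVE.rec_of G _ (fun H π hH hNI hB => ?_) hB
    refine Pool.Agent.U392.SW.local_core G hV hH hNI v s (by
      rw [hdd]
      convert hs) (by
      intro a b ha hb
      rw [dd, dd]
      exact hdiff a b ha hb) (lc V G s v hL) ?_ (univ.filter (fun x => G.Adj v x))
      (fun x => by simp) ?_
    · intro t ht x hx h0 h1
      exact hfar (x 0) (x (Fin.last t)) h0 ((htv _).mp h1)
        ⟨t, ht, x, (pin V G v t x).mp hx, rfl, rfl⟩
    · intro B h1 h2 h3
      rw [dd] at h2
      obtain ⟨t, ht1, hts, hne⟩ := hB B h2 (fun b hb => (htv b).mp (h1 b hb)) (by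
        rintro b hb x hx hxB ⟨t, ht, y, hy, hy0, hyl⟩
        apply hxB
        rw [← hyl]
        exact h3 t ht y ((pin V G v t y).mpr hy) (by rw [hy0]; exact hb)
          (by rw [hyl]; exact (htv x).mpr hx))
      refine ⟨t, ht1, hts, ?_⟩
      intro h4
      apply hne
      have h5 : ∀ P : Finset V, ∀ Q : V → Prop, (∀ x, x ∈ P ↔ Q x) →
          (Pool.Agent.U392.SW.pc G v t P P).card = pathCount G v t Q := by
        intro P Q hPQ
        unfold pathCount
        congr 1
        ext x
        rw [Pool.Agent.U392.SW.mem_pc, mem_filter, pin, hPQ, hPQ]
        simp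
      rw [← h5 B _ (fun x => Iff.rfl), ← h5 (univ.filter (fun x => G.Adj v x)) _
        (fun x => by simp)]
      exact h4

end Pool.Agent.Results.MP_552896_co.ExceptionalVertices
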