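import Pool.Agent.U395.RC.SparFin

set_option autoImplicit false

/-!
# Connected graphs with few cycles, or with few automorphisms of the 2-core

`T(G)` is the set of nonempty cliques of `G` ordered by inclusion. Let `G` be a connected graph
with `n` vertices and `n + k` edges, `k ≥ 1`, let `C` be its 2-core (the largest set of vertices
which induces a graph of minimum degree at least two), and `2 |Aut(G[C])| < (3/2)^t`. Then `T(G)`
and `T` of the complement of `G` are reconstructible in each of the following cases.

(1) More than `t^4` vertices are not in the 2-core.

(2) `n > 8 t^4 + 14 k t^2`.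

(3) `n ≥ 10^9 ((k + 1) log (k + 1))^4`.

So every connected graph with `n` vertices and more than `n`, but at most `n + c n^(1/4) / log n`
edges is reconstructible; in particular all but finitely many connected graphs of each cyclomatic
number `k + 1 ≥ 2`. (Disconnected graphs, trees and graphs with one cycle are reconstructible by
theorems of Kelly and Manvel.) If the 2-core has no symmetries, then `t = 2`, and (2) says that
`n > 128 + 56 k` suffices, while (1) needs 17 vertices outside the 2-core only.

The proof. For a set `P` of vertices let `κ(P)` be twice the number of edges minus twice the number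
of vertices of `G[P]`. The sets with `κ(P) = κ(V)` are the connected sets which contain `C`, and
Kelly's lemma counts them. Let `A ≠ V` be the largest one which is the only one of its order. It is
the same in a hypomorphic graph and preserved by the isomorphisms of the cards of the vertices
outside `A`, so that there are few components outside `A`, and since they are attached by one edge
each, their orders form an initial segment of the integers: there are few vertices outside `A`.
`A` consists of `C` and a path. If this path, or a path of vertices of degree two in the core, is
long, then the card of a vertex in its middle shows to which vertices it has to be attached: the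
end vertices of this card which are not ends of the two long paths are close to the vertices of
degree three and more.
-/

namespace Pool.Agent.Results.MP_552896_co.SparseConnected

/-- The truncated clique lattices of `G` and `H` have the same deck of maximal filter deleted
subsets: some bijection `f` of the vertex sets is such that, for every vertex `v`, the nonempty
cliques of `G` avoiding `v` and the nonempty cliques of `H` avoiding `f v`, both ordered by
inclusion, are isomorphic ordered sets. -/
def SameDeck {V W : Type} (G : SimpleGraph V) (H : SimpleGraph W) : Prop :=
  ∃ f : V ≃ W, ∀ v : V,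
    Nonempty ({s : Finset V // s.Nonempty ∧ G.IsClique (s : Set V) ∧ v ∉ s} ≃o
      {t : Finset W // t.Nonempty ∧ H.IsClique (t : Set W) ∧ f v ∉ t})

/-- `T(G)` is reconstructible from its deck: every truncated clique lattice `T(H)` of a finite
graph `H` with the same deck is isomorphic to `T(G)`. -/
def Reconstructible {V : Type} (G : SimpleGraph V) : Prop :=
  ∀ (W : Type) [Fintype W] (H : SimpleGraph W), SameDeck G H →
    Nonempty ({s : Finset V // s.Nonempty ∧ G.IsClique (s : Set V)} ≃o
      {t : Finset W // t.Nonempty ∧ H.IsClique (t : Set W)})

/-- `C` is the 2-core of `G`: the union of all sets `P` of vertices such that every vertex in `P`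
has at least two neighbours in `P`. -/
def IsTwoCore {V : Type} (G : SimpleGraph V) (C : Finset V) : Prop :=
  ∀ x, x ∈ C ↔ ∃ P : Finset V, x ∈ P ∧
    ∀ y ∈ P, ∃ a ∈ P, ∃ b ∈ P, a ≠ b ∧ G.Adj y a ∧ G.Adj y b

open Classical in
/-- Let `G` be a connected graph with `n` vertices and `n + k` edges, where `k ≥ 1`. Then `T(G)`
and `T(Gᶜ)` are reconstructible if, for the 2-core `C` of `G` and a number `t` such that
`2 |Aut(G[C])| < (3/2)^t`, there are more than `t^4` vertices outside `C` or `G` has more than
`8 t^4 + 14 k t^2` vertices; and if `10^9 ((k + 1) log (k + 1))^4 ≤ n`. -/
theorem result {V : Type} [Fintype V] (G : SimpleGraph V) (hG : G.Connected) (k : ℕ)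
    (hk : 1 ≤ k) (hm : G.edgeSet.ncard = Fintype.card V + k) :
    (∀ (C : Finset V) (t : ℕ), IsTwoCore G C →
      2 * (Nat.card (G.induce (C : Set V) ≃g G.induce (C : Set V)) : ℝ) < (3 / 2 : ℝ) ^ t →
      t ^ 4 < Cᶜ.card ∨ 8 * t ^ 4 + 14 * k * t ^ 2 < Fintype.card V →
      Reconstructible G ∧ Reconstructible Gᶜ) ∧
    (10 ^ 9 * (((k : ℝ) + 1) * Real.log ((k : ℝ) + 1)) ^ 4 ≤ (Fintype.card V : ℝ) →
      Reconstructible G ∧ Reconstructible Gᶜ) :=
  ⟨fun C t hC ht hbig => Pool.Agent.U395.RC.core_form G hG k hk hm C hC t ht hbig,
    fun hbig => Pool.Agent.U395.RC.sparse_form G hG k hk hm hbig⟩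

end Pool.Agent.Results.MP_552896_co.SparseConnected
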