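import Pool.Agent.U395.RC.Uni

set_option autoImplicit false

/-!
# Graphs with many vertices or components outside the union of the subgraphs of a given type

`T(G)` is the set of nonempty cliques of `G` ordered by inclusion. Let `F` be any class of graphs
which is closed under isomorphism, and let `A` be the union of the sets of vertices `P ≠ V` of the
finite graph `G` which induce a member of `F`. For example, `A` is the `k`-core of `G` (if it is
not `V`) for the class of the graphs of minimum degree at least `k`, the set of the vertices on
triangles for the class with the only member `K_3`, the set of the vertices on the cycles of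
length smaller than `n`, the set of vertices in cliques of order `r`, the union of the `k`-connected
subgraphs different from `G`, and so on. A *component* is a connected component of `G - A`, and
`t` is a number with `2 |Aut(G[A])| < (3/2)^t`. Then `T(G)` and `T` of the complement of `G` are
reconstructible in each of the following cases.

(1) There are at least `t^2` components.

(2) `A` is not empty, there are at least two components, each of them is adjacent to at most one
vertex in `A`, and there are at least `t^4` vertices outside `A`.

(3) `A` is not empty, there are at least two components, each of them is adjacent to at most one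
vertex in `A`, there are at least three vertices outside `A`, and, for some `k ≥ 2`, there is a
component of order `k` but no component of order `k - 1`. (Here `t` plays no role.)

The components are arbitrary graphs, and so is the graph induced by `A`, apart from the bound on
its automorphism group. The number of components is not bounded below in (2) and (3).
-/

namespace Pool.Agent.Results.MP_552896_co.UnionsOfSubgraphs

/-- The truncated clique lattices of `G` and `H` have the same deck of maximal filter deleted
subsets: some bijection `f` of the vertex sets is such that, for every vertex `v`, the nonempty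
cliques of `G` avoiding `v` and the nonempty cliques of `H` avoiding `f v`, both ordered by
inclusion, are isomorphic ordered sets. -/
def SameDeck {V W : Type} (G : SimpleGraph V) (H : SimpleGraph W) : Prop :=
  ∃ f : V ≃ W, ∀ v : V,
    Nonempty ({s : Finset V // s.Nonempty ∧ G.IsClique (s : Set V) ∧ v ∉ s} ≃o
      {t : Finset W // t.Nonempty ∧ H.IsClique (t : Set W) ∧ f v ∉ t})

/-- `T(G)` is reconstructible from its deck: every truncated clique lattice `T(H)` of a finite
graph `H` with the same deck is isomorphic to `T(G)`. -/
def Reconstructible {V : Type} (G : SimpleGraph V) : Prop :=
  ∀ (W : Type) [Fintype W] (H : SimpleGraph W), SameDeck G H →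
    Nonempty ({s : Finset V // s.Nonempty ∧ G.IsClique (s : Set V)} ≃o
      {t : Finset W // t.Nonempty ∧ H.IsClique (t : Set W)})

/-- `D` is the vertex set of a connected component of `G - A`. -/
def Component {V : Type} (G : SimpleGraph V) (A D : Finset V) : Prop :=
  (G.induce (D : Set V)).Connected ∧ (∀ x ∈ D, x ∉ A) ∧ ∀ x ∈ D, ∀ y, G.Adj x y → y ∈ D ∨ y ∈ A

open Classical in
/-- Let `F` be an isomorphism closed class of graphs, `A` the union of the sets `P ≠ V` which
induce a member of `F` in the finite graph `G`, and `2 |Aut(G[A])| < (3/2)^t`. Then `T(G)` and
`T(Gᶜ)` are reconstructible if (1) `G - A` has at least `t^2` connected components, or `A ≠ ∅`,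
`G - A` has at least two components, each component is adjacent to at most one vertex in `A`, and
(2) at least `t^4` vertices are not in `A`, or (3) at least three vertices are not in `A` and there
is a component with at least two vertices but no component with exactly one vertex less. -/
theorem result {V : Type} [Fintype V] (G : SimpleGraph V)
    (F : (U : Type) → SimpleGraph U → Prop)
    (hF : ∀ (U U' : Type) (K : SimpleGraph U) (K' : SimpleGraph U'),
      F U K → Nonempty (K ≃g K') → F U' K')
    (A : Finset V)
    (hA : ∀ x, x ∈ A ↔ ∃ P : Finset V, x ∈ P ∧ P ≠ Finset.univ ∧
      F {x // x ∈ (P : Set V)} (G.induce (P : Set V)))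
    (t : ℕ)
    (ht : 2 * (Nat.card (G.induce (A : Set V) ≃g G.induce (A : Set V)) : ℝ) < (3 / 2 : ℝ) ^ t) :
    (t ^ 2 ≤ Nat.card (G.induce {x | x ∉ A}).ConnectedComponent →
      Reconstructible G ∧ Reconstructible Gᶜ) ∧
    (A.Nonempty → (∃ D E, Component G A D ∧ Component G A E ∧ D ≠ E) →
      (∀ D, Component G A D → ∀ a ∈ A, ∀ b ∈ A, ∀ x ∈ D, ∀ y ∈ D,
        G.Adj x a → G.Adj y b → a = b) →
      (t ^ 4 ≤ Aᶜ.card → Reconstructible G ∧ Reconstructible Gᶜ) ∧
      (3 ≤ Aᶜ.card →
        (∃ D, Component G A D ∧ 2 ≤ D.card ∧ ∀ E, Component G A E → E.card + 1 ≠ D.card) →
        Reconstructible G ∧ Reconstructible Gᶜ)) := by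
  obtain ⟨h1, h2⟩ := Pool.Agent.U395.RC.uni_form G F hF A hA t ht
  exact ⟨h1, fun hne hDE hatt => h2 hDE hatt hne⟩

end Pool.Agent.Results.MP_552896_co.UnionsOfSubgraphs
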